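import Pool.Agent.H24R2.DZ.Spec

/-! # SD-SCsum: a multiplicative sum -/

set_option autoImplicit false

namespace Pool.Agent.W613.SD

open Complex Filter Topology Set
open Pool.Agent.H24R2.DZ

/-! ### The zeta function near 1 -/

/-- `(w - 1) ζ(w)` -/
noncomputable def hz : ℂ → ℂ := Function.update (fun s => (s - 1) * riemannZeta s) 1 1

theorem hz_ne {w : ℂ} (hw : w ≠ 1) : hz w = (w - 1) * riemannZeta w := by
  unfold hz
  rw [Function.update_of_ne hw]

theorem hz_cont : Continuous hz := by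
  rw [continuous_iff_continuousAt]
  intro w
  by_cases hw : w = 1
  · rw [hw]
    exact continuousAt_update_same.2 riemannZeta_residue_one
  · have h1 : ContinuousAt (fun s => (s - 1) * riemannZeta s) w :=
      ((continuousAt_id.sub continuousAt_const).mul (differentiableAt_riemannZeta hw).continuousAt)
    refine h1.congr ?_
    filter_upwards [isOpen_ne.mem_nhds hw] with z hz'
    exact (hz_ne hz').symm

theorem hz_ne_zero {w : ℂ} (hw : 1 ≤ w.re) : hz w ≠ 0 := by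
  by_cases h1 : w = 1
  · rw [h1]
    unfold hz
    simp
  · rw [hz_ne h1]
    exact mul_ne_zero (sub_ne_zero.2 h1) (riemannZeta_ne_zero_of_one_le_re hw)

theorem hz_bounds : ∃ a b : ℝ, 0 < a ∧ 0 < b ∧ ∀ w : ℂ, 1 ≤ w.re → w.re ≤ 4 → |w.im| ≤ 1 →
    a ≤ ‖hz w‖ ∧ ‖hz w‖ ≤ b := by
  have hK : IsCompact (Icc (1 : ℝ) 4 ×ℂ Icc (-1 : ℝ) 1) := isCompact_Icc.reProdIm isCompact_Icc
  have hne : (Icc (1 : ℝ) 4 ×ℂ Icc (-1 : ℝ) 1).Nonempty := ⟨1, by
    rw [mem_reProdIm]
    simp⟩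
  obtain ⟨z1, hz1, h1⟩ := hK.exists_isMinOn hne (hz_cont.norm.continuousOn)
  obtain ⟨z2, hz2, h2⟩ := hK.exists_isMaxOn hne (hz_cont.norm.continuousOn)
  rw [mem_reProdIm] at hz1 hz2
  refine ⟨‖hz z1‖, ‖hz z2‖, norm_pos_iff.2 (hz_ne_zero hz1.1.1), norm_pos_iff.2
    (hz_ne_zero hz2.1.1), fun w hw1 hw2 hw3 => ?_⟩
  rw [abs_le] at hw3
  have hw : w ∈ Icc (1 : ℝ) 4 ×ℂ Icc (-1 : ℝ) 1 := by
    rw [mem_reProdIm]
    exact ⟨⟨hw1, hw2⟩, hw3⟩
  exact ⟨h1 hw, h2 hw⟩

/-! ### Sums over primes -/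

/-- real part of the prime zeta function -/
noncomputable def PP (s : ℂ) : ℝ := ∑' p : Nat.Primes, ((p : ℂ) ^ (-s)).re

/-- the constant -/
noncomputable def C2 : ℝ := ∑' p : Nat.Primes, (p : ℝ) ^ (-2 : ℝ)

theorem two_le (p : Nat.Primes) : (2 : ℝ) ≤ p := by exact_mod_cast p.2.two_le

theorem norm_p (p : Nat.Primes) (s : ℂ) : ‖(p : ℂ) ^ s‖ = (p : ℝ) ^ s.re :=
  Complex.norm_natCast_cpow_of_pos p.2.pos s

theorem summable_C2 : Summable fun p : Nat.Primes => (p : ℝ) ^ (-2 : ℝ) :=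
  Nat.Primes.summable_rpow.2 (by norm_num)

theorem summable_p {s : ℂ} (hs : 1 < s.re) : Summable fun p : Nat.Primes => (p : ℂ) ^ (-s) := by
  refine Summable.of_norm ?_
  simp_rw [norm_p]
  exact Nat.Primes.summable_rpow.2 (by rw [neg_re]; linarith)

theorem summable_PP {s : ℂ} (hs : 1 < s.re) :
    Summable fun p : Nat.Primes => ((p : ℂ) ^ (-s)).re :=
  Complex.reCLM.summable (summable_p hs)

theorem log_zeta {s : ℂ} (hs : 1 < s.re) : |Real.log ‖riemannZeta s‖ - PP s| ≤ C2 := by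
  have hnorm : ∀ p : Nat.Primes, ‖(p : ℂ) ^ (-s)‖ ≤ 1 / 2 := by
    intro p
    rw [norm_p, neg_re]
    calc (p : ℝ) ^ (-s.re) ≤ (p : ℝ) ^ (-1 : ℝ) :=
          Real.rpow_le_rpow_of_exponent_le (by linarith [two_le p]) (by linarith)
      _ = (p : ℝ)⁻¹ := Real.rpow_neg_one _
      _ ≤ 1 / 2 := by
          rw [inv_eq_one_div]
          exact one_div_le_one_div_of_le (by norm_num) (two_le p)
  have hterm : ∀ p : Nat.Primes, ‖-Complex.log (1 - (p : ℂ) ^ (-s)) - (p : ℂ) ^ (-s)‖ ≤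
      (p : ℝ) ^ (-2 : ℝ) := by
    intro p
    set z := (p : ℂ) ^ (-s) with hzdef
    have h1 : ‖-z‖ < 1 := by
      rw [norm_neg]
      linarith [hnorm p]
    have h2 := Complex.norm_log_one_add_sub_self_le h1
    rw [norm_neg] at h2
    have h3 : -Complex.log (1 - z) - z = -(Complex.log (1 + -z) - -z) := by
      rw [← sub_eq_add_neg]
      ring
    rw [h3, norm_neg]
    refine h2.trans ?_
    have h4 : (1 - ‖z‖)⁻¹ ≤ 2 := by
      rw [inv_le_comm₀ (by linarith [hnorm p]) (by norm_num)]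
      linarith [hnorm p]
    have h5 : ‖z‖ ^ 2 ≤ (p : ℝ) ^ (-2 : ℝ) := by
      rw [hzdef, norm_p, neg_re, ← Real.rpow_natCast, ← Real.rpow_mul (by positivity)]
      refine Real.rpow_le_rpow_of_exponent_le (by linarith [two_le p]) ?_
      push_cast
      linarith
    have h6 : 0 ≤ ‖z‖ ^ 2 := by positivity
    nlinarith
  have hs1 : Summable fun p : Nat.Primes => -Complex.log (1 - (p : ℂ) ^ (-s)) - (p : ℂ) ^ (-s) :=
    Summable.of_norm_bounded summable_C2 hterm
  have hs2 : Summable fun p : Nat.Primes => -Complex.log (1 - (p : ℂ) ^ (-s)) := by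
    have := hs1.add (summable_p hs)
    simpa using this
  have h1 : Real.log ‖riemannZeta s‖ = (∑' p : Nat.Primes, -Complex.log (1 - (p : ℂ) ^ (-s))).re := by
    rw [← riemannZeta_eulerProduct_exp_log hs, Complex.norm_exp, Real.log_exp]
  have h2 : PP s = (∑' p : Nat.Primes, (p : ℂ) ^ (-s)).re := by
    unfold PP
    exact (Complex.re_tsum (summable_p hs)).symm
  rw [h1, h2, ← Complex.sub_re, ← hs2.tsum_sub (summable_p hs)]
  refine (Complex.abs_re_le_norm _).trans ?_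
  refine (norm_tsum_le_tsum_norm hs1.norm).trans ?_
  exact hs1.norm.tsum_le_tsum hterm summable_C2

/-! ### The finite sum -/

section

variable (L τ : ℝ)

/-- `x_p` -/
noncomputable def xx (p : ℕ) : ℝ := ‖1 - (p : ℂ) ^ (-((1 + I * τ) / L))‖ ^ 2

/-- the summand -/
noncomputable def fs (n : ℕ) : ℝ :=
  (n : ℝ) ^ (-(1 + 1 / L)) * ∏ p ∈ n.primeFactors, xx L τ p

variable {L τ}

theorem xx_nonneg (p : ℕ) : 0 ≤ xx L τ p := by unfold xx; positivity

theorem fs_nonneg (n : ℕ) : 0 ≤ fs L τ n := by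
  unfold fs
  exact mul_nonneg (by positivity) (Finset.prod_nonneg fun p _ => xx_nonneg p)

theorem xx_le (hL : 1 ≤ L) {p : ℕ} (hp : p.Prime) : xx L τ p ≤ 4 := by
  unfold xx
  have h1 : ‖(p : ℂ) ^ (-((1 + I * τ) / L))‖ ≤ 1 := by
    rw [Complex.norm_natCast_cpow_of_pos hp.pos]
    refine Real.rpow_le_one_of_one_le_of_nonpos (by exact_mod_cast hp.one_le) ?_
    have h2 : ((1 + I * τ) / (L : ℂ)).re = 1 / L := by
      rw [Complex.div_ofReal_re]
      simp
    rw [neg_re, h2]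
    have : 0 < 1 / L := by positivity
    linarith
  have h2 : ‖1 - (p : ℂ) ^ (-((1 + I * τ) / L))‖ ≤ 2 := by
    refine (norm_sub_le _ _).trans ?_
    rw [norm_one]
    linarith
  have h3 := norm_nonneg (1 - (p : ℂ) ^ (-((1 + I * τ) / L)))
  nlinarith

theorem fs_pow {p : ℕ} (hp : p.Prime) (k : ℕ) :
    fs L τ (p ^ (k + 1)) = ((p : ℝ) ^ (-(1 + 1 / L))) ^ (k + 1) * xx L τ p := by
  unfold fs
  rw [Nat.primeFactors_prime_pow (Nat.succ_ne_zero k) hp, Finset.prod_singleton]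
  congr 1
  push_cast
  rw [← Real.rpow_natCast, ← Real.rpow_mul (by positivity), ← Real.rpow_natCast,
    ← Real.rpow_mul (by positivity), mul_comm]

theorem fs_one : fs L τ 1 = 1 := by
  unfold fs
  simp

theorem fs_mul {m n : ℕ} (h : Nat.Coprime m n) : fs L τ (m * n) = fs L τ m * fs L τ n := by
  unfold fs
  rw [h.primeFactors_mul, Finset.prod_union h.disjoint_primeFactors, Nat.cast_mul,
    Real.mul_rpow (by positivity) (by positivity)]
  ring

theorem u_le (hL : 1 ≤ L) {p : ℕ} (hp : p.Prime) : (p : ℝ) ^ (-(1 + 1 / L)) ≤ 1 / 2 := by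
  have h2 : (2 : ℝ) ≤ p := by exact_mod_cast hp.two_le
  have : 0 < 1 / L := by positivity
  calc (p : ℝ) ^ (-(1 + 1 / L)) ≤ (p : ℝ) ^ (-1 : ℝ) :=
        Real.rpow_le_rpow_of_exponent_le (by linarith) (by linarith)
    _ = (p : ℝ)⁻¹ := Real.rpow_neg_one _
    _ ≤ 1 / 2 := by
        rw [inv_eq_one_div]
        exact one_div_le_one_div_of_le (by norm_num) h2

theorem fs_hasSum (hL : 1 ≤ L) {p : ℕ} (hp : p.Prime) :
    HasSum (fun k : ℕ => fs L τ (p ^ k))
      (1 + xx L τ p * ((p : ℝ) ^ (-(1 + 1 / L)) / (1 - (p : ℝ) ^ (-(1 + 1 / L))))) := by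
  set u : ℝ := (p : ℝ) ^ (-(1 + 1 / L)) with hu
  have hu0 : 0 ≤ u := by positivity
  have hu1 : u ≤ 1 / 2 := u_le hL hp
  have h1 : HasSum (fun k : ℕ => fs L τ (p ^ (k + 1))) (xx L τ p * (u / (1 - u))) := by
    have h2 := (hasSum_geometric_of_lt_one hu0 (by linarith : u < 1)).mul_left (u * xx L τ p)
    have e : u * xx L τ p * (1 - u)⁻¹ = xx L τ p * (u / (1 - u)) := by
      rw [div_eq_mul_inv]
      ring
    rw [e] at h2
    refine h2.congr_fun ?_ |> fun h => h
    intro k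
    rw [fs_pow hp, ← hu, pow_succ]
    ring
  have h3 := (hasSum_nat_add_iff (f := fun k : ℕ => fs L τ (p ^ k)) 1).1 h1
  simp only [Finset.range_one, Finset.sum_singleton, pow_zero, fs_one] at h3
  rw [add_comm]
  exact h3

theorem factor_le (hL : 1 ≤ L) {p : ℕ} (hp : p.Prime) :
    1 + xx L τ p * ((p : ℝ) ^ (-(1 + 1 / L)) / (1 - (p : ℝ) ^ (-(1 + 1 / L)))) ≤
      Real.exp (xx L τ p * (p : ℝ) ^ (-(1 + 1 / L)) + 8 * (p : ℝ) ^ (-2 : ℝ)) := by
  set u : ℝ := (p : ℝ) ^ (-(1 + 1 / L)) with hu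
  have hu0 : 0 ≤ u := by positivity
  have hu1 : u ≤ 1 / 2 := u_le hL hp
  have hx0 : 0 ≤ xx L τ p := xx_nonneg p
  have hx4 : xx L τ p ≤ 4 := xx_le hL hp
  have hu2 : u ^ 2 ≤ (p : ℝ) ^ (-2 : ℝ) := by
    have h2 : (2 : ℝ) ≤ p := by exact_mod_cast hp.two_le
    have h3 : 0 < 1 / L := by positivity
    rw [hu, ← Real.rpow_natCast, ← Real.rpow_mul (by positivity)]
    refine Real.rpow_le_rpow_of_exponent_le (by linarith) ?_
    push_cast
    linarith
  have h1 : u / (1 - u) ≤ u + 2 * u ^ 2 := by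
    rw [div_le_iff₀ (by linarith)]
    nlinarith [sq_nonneg u, mul_nonneg (sq_nonneg u) (by linarith : 0 ≤ 1 - 2 * u)]
  have h2 := Real.add_one_le_exp (xx L τ p * u + 8 * (p : ℝ) ^ (-2 : ℝ))
  have h3 : xx L τ p * (u / (1 - u)) ≤ xx L τ p * u + 8 * (p : ℝ) ^ (-2 : ℝ) := by
    calc xx L τ p * (u / (1 - u)) ≤ xx L τ p * (u + 2 * u ^ 2) :=
          mul_le_mul_of_nonneg_left h1 hx0
      _ = xx L τ p * u + 2 * (xx L τ p * u ^ 2) := by ring
      _ ≤ xx L τ p * u + 2 * (4 * (p : ℝ) ^ (-2 : ℝ)) := by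
          have h4 : xx L τ p * u ^ 2 ≤ 4 * (p : ℝ) ^ (-2 : ℝ) :=
            mul_le_mul hx4 hu2 (by positivity) (by norm_num)
          linarith
      _ = _ := by ring
  linarith

theorem sum_le (hL : 1 ≤ L) (N : ℕ)
    (hsum : Summable fun p : Nat.Primes => xx L τ p * (p : ℝ) ^ (-(1 + 1 / L))) :
    ∑ n ∈ Finset.Icc 1 N, fs L τ n ≤
      Real.exp ((∑' p : Nat.Primes, xx L τ p * (p : ℝ) ^ (-(1 + 1 / L))) + 8 * C2) := by
  have hE := EulerProduct.summable_and_hasSum_factoredNumbers_prod_filter_prime_tsum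
    (f := fs L τ) fs_one (fun {m n} h => fs_mul h)
    (fun {p} hp => by
      have h1 := (fs_hasSum (L := L) (τ := τ) hL hp).summable
      exact h1.norm) (Finset.range (N + 1))
  obtain ⟨hE1, hE2⟩ := hE
  -- the finite sum is at most the sum over factored numbers
  have h1 : ∑ n ∈ Finset.Icc 1 N, fs L τ n ≤
      ∑' m : Nat.factoredNumbers (Finset.range (N + 1)), fs L τ m := by
    rw [tsum_subtype (Nat.factoredNumbers (Finset.range (N + 1))) (fs L τ)]
    have h2 : Summable ((Nat.factoredNumbers (Finset.range (N + 1))).indicator (fs L τ)) := by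
      rw [← summable_subtype_iff_indicator]
      exact hE1.of_norm
    have h3 := h2.sum_le_tsum (Finset.Icc 1 N) (fun n _ => Set.indicator_nonneg
      (fun m _ => fs_nonneg m) n)
    refine le_trans (le_of_eq ?_) h3
    refine Finset.sum_congr rfl fun n hn => ?_
    rw [Finset.mem_Icc] at hn
    rw [Set.indicator_of_mem]
    rw [Nat.mem_factoredNumbers]
    refine ⟨by omega, fun p hp => ?_⟩
    rw [Finset.mem_range]
    have := Nat.le_of_mem_primeFactorsList hp
    omega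
  refine h1.trans ?_
  rw [hE2.tsum_eq]
  have h4 : ∏ p ∈ (Finset.range (N + 1)).filter Nat.Prime, ∑' n : ℕ, fs L τ (p ^ n) ≤
      ∏ p ∈ (Finset.range (N + 1)).filter Nat.Prime,
        Real.exp (xx L τ p * (p : ℝ) ^ (-(1 + 1 / L)) + 8 * (p : ℝ) ^ (-2 : ℝ)) := by
    refine Finset.prod_le_prod (fun p _ => tsum_nonneg fun n => fs_nonneg _) fun p hp => ?_
    rw [Finset.mem_filter] at hp
    rw [(fs_hasSum hL hp.2).tsum_eq]
    exact factor_le hL hp.2
  refine h4.trans ?_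
  rw [← Real.exp_sum, Real.exp_le_exp]
  set g : ℕ → ℝ := fun p => xx L τ p * (p : ℝ) ^ (-(1 + 1 / L)) + 8 * (p : ℝ) ^ (-2 : ℝ) with hg
  have hg0 : ∀ p, 0 ≤ g p := fun p =>
    add_nonneg (mul_nonneg (xx_nonneg p) (by positivity)) (by positivity)
  have hgs : Summable fun p : Nat.Primes => g p := hsum.add (summable_C2.mul_left 8)
  have h5 : ∑' p : Nat.Primes, g p =
      (∑' p : Nat.Primes, xx L τ p * (p : ℝ) ^ (-(1 + 1 / L))) + 8 * C2 := by
    rw [hg]
    unfold C2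
    rw [← tsum_mul_left]
    exact hsum.tsum_add (summable_C2.mul_left 8)
  rw [← h5]
  have h6 : ∑' p : Nat.Primes, g p = ∑' n : ℕ, {p : ℕ | p.Prime}.indicator g n :=
    tsum_subtype {p : ℕ | p.Prime} g
  have h7 : Summable ({p : ℕ | p.Prime}.indicator g) := by
    rw [← summable_subtype_iff_indicator]
    exact hgs
  rw [h6]
  have h8 := h7.sum_le_tsum ((Finset.range (N + 1)).filter Nat.Prime)
    (fun n _ => Set.indicator_nonneg (fun m _ => hg0 m) n)
  refine le_trans (le_of_eq ?_) h8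
  refine Finset.sum_congr rfl fun p hp => ?_
  rw [Finset.mem_filter] at hp
  rw [Set.indicator_of_mem (show p ∈ {p : ℕ | p.Prime} from hp.2)]

/-- the identity for the prime sum -/
theorem prime_id (p : Nat.Primes) :
    xx L τ p * (p : ℝ) ^ (-(1 + 1 / L)) =
      ((p : ℂ) ^ (-((1 + 1 / L : ℝ) : ℂ))).re + ((p : ℂ) ^ (-((1 + 3 / L : ℝ) : ℂ))).re -
        2 * ((p : ℂ) ^ (-(((1 + 1 / L : ℝ) : ℂ) + (1 + I * τ) / L))).re := by
  have hp0 : (p : ℂ) ≠ 0 := by exact_mod_cast p.2.ne_zero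
  have hreal : ∀ x : ℝ, ((p : ℂ) ^ (-(x : ℂ))) = (((p : ℝ) ^ (-x) : ℝ) : ℂ) := by
    intro x
    rw [Complex.ofReal_cpow (by positivity)]
    push_cast
    rfl
  set z : ℂ := (p : ℂ) ^ (-((1 + I * τ) / L)) with hz
  have h1 : (p : ℂ) ^ (-(((1 + 1 / L : ℝ) : ℂ) + (1 + I * τ) / L)) =
      (((p : ℝ) ^ (-(1 + 1 / L)) : ℝ) : ℂ) * z := by
    rw [neg_add, Complex.cpow_add _ _ hp0, hreal]
  have hnz : ‖z‖ = (p : ℝ) ^ (-(1 / L)) := by
    rw [hz, norm_p]
    congr 1
    rw [neg_re, Complex.div_ofReal_re]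
    simp
  have h2 : ‖1 - z‖ ^ 2 = 1 - 2 * z.re + ‖z‖ ^ 2 := by
    rw [← Complex.normSq_eq_norm_sq, ← Complex.normSq_eq_norm_sq, Complex.normSq_apply,
      Complex.normSq_apply]
    simp
    ring
  have h3 : (p : ℝ) ^ (-(1 + 3 / L)) = (p : ℝ) ^ (-(1 + 1 / L)) * ‖z‖ ^ 2 := by
    have hpp : (0 : ℝ) < p := by linarith [two_le p]
    rw [hnz, ← Real.rpow_natCast, ← Real.rpow_mul (by positivity), ← Real.rpow_add hpp]
    congr 1
    push_cast
    ring
  unfold xx
  rw [h1, hreal, hreal, Complex.ofReal_re, Complex.ofReal_re, Complex.re_ofReal_mul, ← hz, h2, h3]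
  ring

end

theorem zeta_le {b : ℝ} (hb : ∀ w : ℂ, 1 ≤ w.re → w.re ≤ 4 → |w.im| ≤ 1 → ‖hz w‖ ≤ b)
    {x : ℝ} (hx : 0 < x) (hx3 : x ≤ 3) : ‖riemannZeta ((1 + x : ℝ) : ℂ)‖ ≤ b / x := by
  have h1 := hb ((1 + x : ℝ) : ℂ) (by rw [Complex.ofReal_re]; linarith)
    (by rw [Complex.ofReal_re]; linarith) (by rw [Complex.ofReal_im]; simp)
  have hne : ((1 + x : ℝ) : ℂ) ≠ 1 := by
    intro h
    have := congrArg Complex.re h
    simp at this
    linarith
  rw [hz_ne hne, norm_mul] at h1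
  have h2 : ‖((1 + x : ℝ) : ℂ) - 1‖ = x := by
    rw [show ((1 + x : ℝ) : ℂ) - 1 = (x : ℂ) by push_cast; ring, Complex.norm_real,
      Real.norm_of_nonneg hx.le]
  rw [h2] at h1
  rw [le_div_iff₀ hx]
  linarith

theorem scsum : SCsum := by
  obtain ⟨a, b, ha, hb, hab⟩ := hz_bounds
  have hup : ∀ w : ℂ, 1 ≤ w.re → w.re ≤ 4 → |w.im| ≤ 1 → ‖hz w‖ ≤ b :=
    fun w h1 h2 h3 => (hab w h1 h2 h3).2
  set M : ℝ := Real.exp (12 * C2) * (b ^ 4 + b ^ 2 * (4 / a ^ 2)) with hM
  refine ⟨M, by positivity, fun L τ N hL => ?_⟩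
  have hL0 : 0 < L := by linarith
  have hτ : 1 ≤ 1 + |τ| := by linarith [abs_nonneg τ]
  have h1L : 0 < 1 / L := by positivity
  have h1L1 : 1 / L ≤ 1 := by
    rw [div_le_one hL0]
    exact hL
  set s₁ : ℂ := ((1 + 1 / L : ℝ) : ℂ) with hs₁
  set s₃ : ℂ := ((1 + 3 / L : ℝ) : ℂ) with hs₃
  set w : ℂ := ((1 + 1 / L : ℝ) : ℂ) + (1 + I * τ) / L with hw
  have h3L : 3 / L = 3 * (1 / L) := by ring
  have h2L : 2 / L = 2 * (1 / L) := by ring
  have hr1 : 1 < s₁.re := by rw [hs₁, Complex.ofReal_re]; linarith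
  have hr3 : 1 < s₃.re := by rw [hs₃, Complex.ofReal_re]; linarith
  have hwre : w.re = 1 + 2 / L := by
    rw [hw, Complex.add_re, Complex.ofReal_re, Complex.div_ofReal_re]
    simp
    ring
  have hwim : w.im = τ / L := by
    rw [hw, Complex.add_im, Complex.ofReal_im, Complex.div_ofReal_im]
    simp
  have hrw : 1 < w.re := by rw [hwre]; linarith
  have hsum : Summable fun p : Nat.Primes => xx L τ p * (p : ℝ) ^ (-(1 + 1 / L)) := by
    simp_rw [prime_id]
    exact ((summable_PP hr1).add (summable_PP hr3)).sub ((summable_PP hrw).mul_left 2)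
  have hT : ∑' p : Nat.Primes, xx L τ p * (p : ℝ) ^ (-(1 + 1 / L)) = PP s₁ + PP s₃ - 2 * PP w := by
    simp_rw [prime_id]
    rw [((summable_PP hr1).add (summable_PP hr3)).tsum_sub ((summable_PP hrw).mul_left 2),
      (summable_PP hr1).tsum_add (summable_PP hr3), tsum_mul_left]
    rfl
  have hmain := sum_le hL N hsum
  rw [hT] at hmain
  have hgoal : ∑ n ∈ Finset.Icc 1 N, (n : ℝ) ^ (-(1 + 1 / L)) *
      ∏ p ∈ n.primeFactors, ‖1 - (p : ℂ) ^ (-((1 + I * τ) / L))‖ ^ 2 =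
      ∑ n ∈ Finset.Icc 1 N, fs L τ n := rfl
  rw [hgoal]
  refine hmain.trans ?_
  have hζpos : ∀ s : ℂ, 1 < s.re → 0 < ‖riemannZeta s‖ := fun s hs =>
    norm_pos_iff.2 (riemannZeta_ne_zero_of_one_le_re hs.le)
  have hPup : ∀ s : ℂ, 1 < s.re → PP s ≤ Real.log ‖riemannZeta s‖ + C2 := fun s hs => by
    have := (abs_le.1 (log_zeta hs)).1
    linarith
  have hPlow : ∀ s : ℂ, 1 < s.re → Real.log ‖riemannZeta s‖ - C2 ≤ PP s := fun s hs => by
    have := (abs_le.1 (log_zeta hs)).2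
    linarith
  have hz1 : ‖riemannZeta s₁‖ ≤ b * L := by
    have := zeta_le hup (x := 1 / L) h1L (by linarith)
    rw [div_div_eq_mul_div, div_one] at this
    exact this
  have hz3 : ‖riemannZeta s₃‖ ≤ b * L := by
    have h1 := zeta_le hup (x := 3 / L) (by positivity) (by rw [h3L]; linarith)
    have h2 : b / (3 / L) = b * L / 3 := by rw [div_div_eq_mul_div]
    rw [h2] at h1
    have h3 : 0 ≤ b * L := by positivity
    linarith
  rcases le_or_gt |τ| L with hc | hc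
  · -- |τ| ≤ L
    have himw : |w.im| ≤ 1 := by
      rw [hwim, abs_div, abs_of_pos hL0, div_le_one hL0]
      exact hc
    have hne : w ≠ 1 := by
      intro h
      have := congrArg Complex.re h
      rw [hwre, Complex.one_re] at this
      linarith
    have h1 := (hab w hrw.le (by rw [hwre]; linarith) himw).1
    rw [hz_ne hne, norm_mul] at h1
    have h2 : ‖w - 1‖ ≤ 2 * (1 + |τ|) / L := by
      have e : w - 1 = (2 + I * τ) / L := by
        rw [hw]
        push_cast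
        ring
      rw [e, norm_div, Complex.norm_real, Real.norm_of_nonneg hL0.le]
      refine div_le_div_of_nonneg_right ?_ hL0.le
      refine (norm_add_le _ _).trans ?_
      rw [norm_mul, Complex.norm_I, one_mul, Complex.norm_real, Real.norm_eq_abs,
        Complex.norm_ofNat]
      linarith [abs_nonneg τ]
    -- lower bound for zeta
    have h3 : a * L / (2 * (1 + |τ|)) ≤ ‖riemannZeta w‖ := by
      rw [div_le_iff₀ (by positivity)]
      have h4 : a ≤ 2 * (1 + |τ|) / L * ‖riemannZeta w‖ :=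
        h1.trans (mul_le_mul_of_nonneg_right h2 (norm_nonneg _))
      have h5 : a * L ≤ 2 * (1 + |τ|) / L * ‖riemannZeta w‖ * L :=
        mul_le_mul_of_nonneg_right h4 hL0.le
      have h6 : 2 * (1 + |τ|) / L * ‖riemannZeta w‖ * L = ‖riemannZeta w‖ * (2 * (1 + |τ|)) := by
        field_simp
      linarith
    have h4 : PP s₁ + PP s₃ - 2 * PP w + 8 * C2 ≤ 12 * C2 + Real.log (b * L) + Real.log (b * L) -
        2 * Real.log (a * L / (2 * (1 + |τ|))) := by
      have e1 := hPup s₁ hr1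
      have e2 := hPup s₃ hr3
      have e3 := hPlow w hrw
      have e4 := Real.log_le_log (hζpos s₁ hr1) hz1
      have e5 := Real.log_le_log (hζpos s₃ hr3) hz3
      have e6 := Real.log_le_log (by positivity) h3
      linarith
    refine (Real.exp_le_exp.2 h4).trans ?_
    have h5 : 12 * C2 + Real.log (b * L) + Real.log (b * L) -
        2 * Real.log (a * L / (2 * (1 + |τ|))) =
        12 * C2 + Real.log ((b * L) * (b * L) / (a * L / (2 * (1 + |τ|))) ^ 2) := by
      have e1 : 0 < a * L / (2 * (1 + |τ|)) := by positivity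
      have e2 : 0 < b * L := by positivity
      generalize a * L / (2 * (1 + |τ|)) = y at e1 ⊢
      generalize b * L = x at e2 ⊢
      rw [Real.log_div (by positivity) (by positivity), Real.log_mul (by positivity)
        (by positivity), Real.log_pow]
      push_cast
      ring
    rw [h5, Real.exp_add, Real.exp_log (by positivity)]
    have h6 : (b * L) * (b * L) / (a * L / (2 * (1 + |τ|))) ^ 2 =
        b ^ 2 * (4 / a ^ 2) * (1 + |τ|) ^ 2 := by
      field_simp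
      ring
    rw [h6, hM]
    have h7 : (1 + |τ|) ^ 2 ≤ (1 + |τ|) ^ 8 := pow_le_pow_right₀ hτ (by norm_num)
    have h8 : b ^ 2 * (4 / a ^ 2) * (1 + |τ|) ^ 2 ≤
        (b ^ 4 + b ^ 2 * (4 / a ^ 2)) * (1 + |τ|) ^ 8 := by
      refine mul_le_mul ?_ h7 (by positivity) (by positivity)
      have : 0 ≤ b ^ 4 := by positivity
      linarith
    calc Real.exp (12 * C2) * (b ^ 2 * (4 / a ^ 2) * (1 + |τ|) ^ 2)
        ≤ Real.exp (12 * C2) * ((b ^ 4 + b ^ 2 * (4 / a ^ 2)) * (1 + |τ|) ^ 8) :=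
          mul_le_mul_of_nonneg_left h8 (Real.exp_pos _).le
      _ = _ := by ring
  · -- |τ| > L
    set s₂ : ℂ := ((1 + 2 / L : ℝ) : ℂ) with hs₂
    have hr2 : 1 < s₂.re := by rw [hs₂, Complex.ofReal_re]; linarith
    have hz2 : ‖riemannZeta s₂‖ ≤ b * L := by
      have h1 := zeta_le hup (x := 2 / L) (by positivity) (by rw [h2L]; linarith)
      have h2 : b / (2 / L) = b * L / 2 := by rw [div_div_eq_mul_div]
      rw [h2] at h1
      have h3 : 0 ≤ b * L := by positivity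
      linarith
    have hPw : -PP w ≤ PP s₂ := by
      unfold PP
      rw [← tsum_neg]
      refine (summable_PP hrw).neg.tsum_le_tsum (fun p => ?_) (summable_PP hr2)
      have h1 := (abs_le.1 (Complex.abs_re_le_norm ((p : ℂ) ^ (-w)))).1
      rw [norm_p, neg_re, hwre] at h1
      have h2 : ((p : ℂ) ^ (-s₂)).re = (p : ℝ) ^ (-(1 + 2 / L)) := by
        rw [hs₂]
        have : ((p : ℂ) ^ (-((1 + 2 / L : ℝ) : ℂ))) = (((p : ℝ) ^ (-(1 + 2 / L)) : ℝ) : ℂ) := by
          rw [Complex.ofReal_cpow (by positivity)]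
          push_cast
          rfl
        rw [this, Complex.ofReal_re]
      rw [h2]
      linarith
    have h4 : PP s₁ + PP s₃ - 2 * PP w + 8 * C2 ≤ 12 * C2 + Real.log (b * L) + Real.log (b * L) +
        2 * Real.log (b * L) := by
      have e1 := hPup s₁ hr1
      have e2 := hPup s₃ hr3
      have e3 := hPup s₂ hr2
      have e4 := Real.log_le_log (hζpos s₁ hr1) hz1
      have e5 := Real.log_le_log (hζpos s₃ hr3) hz3
      have e6 := Real.log_le_log (hζpos s₂ hr2) hz2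
      linarith
    refine (Real.exp_le_exp.2 h4).trans ?_
    have h5 : 12 * C2 + Real.log (b * L) + Real.log (b * L) + 2 * Real.log (b * L) =
        12 * C2 + Real.log ((b * L) ^ 4) := by
      rw [Real.log_pow]
      push_cast
      ring
    rw [h5, Real.exp_add, Real.exp_log (by positivity), hM]
    have h6 : (b * L) ^ 4 ≤ b ^ 4 * (1 + |τ|) ^ 8 := by
      rw [mul_pow]
      refine mul_le_mul_of_nonneg_left ?_ (by positivity)
      calc L ^ 4 ≤ (1 + |τ|) ^ 4 := pow_le_pow_left₀ hL0.le (by linarith) 4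
        _ ≤ (1 + |τ|) ^ 8 := pow_le_pow_right₀ hτ (by norm_num)
    have h7 : b ^ 4 * (1 + |τ|) ^ 8 ≤ (b ^ 4 + b ^ 2 * (4 / a ^ 2)) * (1 + |τ|) ^ 8 := by
      refine mul_le_mul_of_nonneg_right ?_ (by positivity)
      have : 0 ≤ b ^ 2 * (4 / a ^ 2) := by positivity
      linarith
    calc Real.exp (12 * C2) * (b * L) ^ 4
        ≤ Real.exp (12 * C2) * ((b ^ 4 + b ^ 2 * (4 / a ^ 2)) * (1 + |τ|) ^ 8) :=
          mul_le_mul_of_nonneg_left (h6.trans h7) (Real.exp_pos _).le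
      _ = _ := by ring

end Pool.Agent.W613.SD
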